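import Mathlib
open Set Filter Topology
namespace Pool.Agent.Results.MP_a2e3d9_lc.NoGood

def Good {X : Type} (f : X → X) (B : Set X) : Prop :=
  (∀ x, ∃ y ∈ B, ∃ m n : ℕ, f^[m] x = f^[n] y) ∧ f '' B ⊆ B ∧ ∀ y, (f ⁻¹' {y} ∩ B).Finite

def sh (p : ℕ × (ℕ → ℕ)) : ℕ × (ℕ → ℕ) := (p.1 + 1, fun n => p.2 (n + 1))

lemma sh_iter (k : ℕ) (p : ℕ × (ℕ → ℕ)) : sh^[k] p = (p.1 + k, fun n => p.2 (n + k)) := by
  induction k with
  | zero => rfl
  | succ k ih =>
    rw [Function.iterate_succ_apply', ih]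
    simp only [sh, Nat.add_assoc, Nat.add_comm 1 k]

def app (x : ℕ → ℕ) (k : ℕ) (y : ℕ → ℕ) : ℕ → ℕ := fun n => if n < k then x n else y (n - k)

lemma app_cont (x : ℕ → ℕ) (k : ℕ) : Continuous (app x k) := by
  refine continuous_pi fun n => ?_
  unfold app
  split_ifs
  · exact continuous_const
  · exact continuous_apply _

lemma app_self (z : ℕ → ℕ) (k : ℕ) : app z k (fun n => z (n + k)) = z := by
  funext n
  unfold app
  split_ifs with h
  · rfl
  · simp only [Nat.sub_add_cancel (not_lt.mp h)]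

lemma app_tail (x : ℕ → ℕ) (k : ℕ) (y : ℕ → ℕ) : (fun n => app x k y (n + k)) = y := by
  funext n
  simp [app]

lemma mk_open (m : ℕ) : IsOpenMap fun y : ℕ → ℕ => (m, y) := by
  intro U hU
  have : (fun y : ℕ → ℕ => (m, y)) '' U = {m} ×ˢ U := by
    ext ⟨a, b⟩; simp [eq_comm, and_comm]
  rw [this]
  exact (isOpen_discrete _).prod hU

lemma app_open (x : ℕ → ℕ) (k : ℕ) : IsOpenMap (app x k) := by
  intro U hU
  have : app x k '' U = (⋂ n ∈ Iio k, (fun z : ℕ → ℕ => z n) ⁻¹' {x n}) ∩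
      (fun (z : ℕ → ℕ) n => z (n + k)) ⁻¹' U := by
    ext z
    simp only [mem_image, mem_inter_iff, mem_iInter, mem_preimage, mem_singleton_iff, mem_Iio]
    constructor
    · rintro ⟨y, hy, rfl⟩
      exact ⟨fun n hn => if_pos hn, by rwa [app_tail]⟩
    · rintro ⟨h1, h2⟩
      refine ⟨_, h2, Eq.trans ?_ (app_self z k)⟩
      funext n
      unfold app
      split_ifs with h
      · exact (h1 n h).symm
      · rfl
  rw [this]
  exact ((finite_Iio k).isOpen_biInter fun n _ =>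
    (isOpen_discrete _).preimage (continuous_apply n)).inter (hU.preimage (by fun_prop))

lemma tail_open (k : ℕ) : IsOpenMap fun (z : ℕ → ℕ) n => z (n + k) := by
  intro U hU
  have : (fun (z : ℕ → ℕ) n => z (n + k)) '' U = ⋃ x, app x k ⁻¹' U := by
    ext y
    simp only [mem_image, mem_iUnion, mem_preimage]
    constructor
    · rintro ⟨z, hz, rfl⟩
      exact ⟨z, by rwa [app_self]⟩
    · rintro ⟨x, hx⟩
      exact ⟨_, hx, app_tail x k y⟩
  rw [this]
  exact isOpen_iUnion fun x => hU.preimage (app_cont x k)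

lemma main (B : Set (ℕ × (ℕ → ℕ))) (hB : BaireMeasurableSet B) : ¬ Good sh B := by
  rintro ⟨h1, h2, h3⟩
  have inv : ∀ k, ∀ p ∈ B, sh^[k] p ∈ B := by
    intro k p hp
    induction k with
    | zero => exact hp
    | succ k ih => rw [Function.iterate_succ_apply']; exact h2 ⟨_, ih, rfl⟩
  obtain ⟨U, hU, hBU⟩ := hB.residualEq_isOpen
  have hM : IsMeagre {p | ¬ (p ∈ B ↔ p ∈ U)} := by
    refine mem_of_superset hBU fun p hp => ?_
    exact not_not.mpr (Iff.of_eq hp)
  have avoid : ∀ g : ℕ → (ℕ → ℕ) → ℕ × (ℕ → ℕ), (∀ b, Continuous (g b)) → (∀ b, IsOpenMap (g b)) →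
      ∃ y, ∀ b, g b y ∈ B ↔ g b y ∈ U := by
    intro g hg1 hg2
    have a1 := isMeagre_iUnion fun b => hM.preimage_of_isOpenMap (hg1 b) (hg2 b)
    obtain ⟨y, hy⟩ := (dense_of_mem_residual a1).nonempty
    exact ⟨y, fun b => by simpa using fun h => hy (mem_iUnion.mpr ⟨b, h⟩)⟩
  obtain ⟨x0, hx0⟩ := avoid (fun k z => (k, fun n => z (n + k))) (fun k => by fun_prop)
    fun k => (mk_open k).comp (tail_open k)
  obtain ⟨y0, hy0, m, n0, hm⟩ := h1 (0, x0)
  have a1 := inv n0 y0 hy0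
  rw [← hm, sh_iter] at a1
  simp only [Nat.zero_add] at a1
  have a2 := (hx0 m).mp a1
  set x : ℕ → ℕ := fun n => x0 (n + m)
  have a3 : (fun y => (m, y)) ⁻¹' U ∈ 𝓝 x := (hU.preimage (by fun_prop)).mem_nhds a2
  rw [nhds_pi, Filter.mem_pi'] at a3
  obtain ⟨J, t, ht1, ht2⟩ := a3
  set k := J.sup id + 1 with hk
  obtain ⟨y, hy⟩ := avoid (fun b y => (m, app x k (app (fun _ => b) 1 y)))
    (fun b => continuous_const.prodMk ((app_cont _ _).comp (app_cont _ _)))
    fun b => (mk_open m).comp ((app_open _ _).comp (app_open _ _))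
  have a4 : ∀ b, (m + k, app (fun _ => b) 1 y) ∈ B := by
    intro b
    have := inv k _ ((hy b).mpr (ht2 fun i hi => by
      have : i ≤ J.sup id := Finset.le_sup (f := id) hi
      show app x k _ i ∈ t i
      rw [app, if_pos (by omega)]
      exact mem_of_mem_nhds (ht1 i)))
    rwa [sh_iter, app_tail] at this
  refine Set.infinite_of_injective_forall_mem (f := fun b => (m + k, app (fun _ => b) 1 y))
    (s := sh ⁻¹' {(m + k + 1, y)} ∩ B) (fun a b h => ?_) (fun b => ⟨?_, a4 b⟩) (h3 (m + k + 1, y))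
  · simpa [app] using congrFun (congrArg Prod.snd h) 0
  · simp only [mem_preimage, sh, app_tail, mem_singleton_iff]

theorem result : ∃ (X : Type) (_ : TopologicalSpace X) (_ : PolishSpace X) (f : X → X),
    @Measurable X X (borel X) (borel X) f ∧ (∀ y, (f ⁻¹' {y}).Countable) ∧
    (∀ x, ∀ n ≥ 1, f^[n] x ≠ x) ∧ (¬ ∃ s : ℕ → X, ∀ i, f (s (i + 1)) = s i) ∧
    (∀ B : Set X, @MeasurableSet X (borel X) B → ¬ Good f B) ∧
    ∀ B : Set X, BaireMeasurableSet B → ¬ Good f B := by
  refine ⟨ℕ × (ℕ → ℕ), inferInstance, inferInstance, sh, ?_, ?_, ?_, ?_, ?_, main⟩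
  · exact Continuous.borel_measurable (by unfold sh; fun_prop)
  · intro y
    refine (countable_range fun b : ℕ => (y.1 - 1, app (fun _ => b) 1 y.2)).mono ?_
    rintro p rfl
    refine ⟨p.2 0, Prod.ext (by simp [sh]) ?_⟩
    funext n
    cases n <;> simp [app, sh]
  · intro x n hn h
    have := congrArg Prod.fst h
    rw [sh_iter] at this
    simp only at this
    omega
  · rintro ⟨s, hs⟩
    have : ∀ i, (s i).1 + i = (s 0).1 := by
      intro i
      induction i with
      | zero => rfl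
      | succ i ih =>
        have := congrArg Prod.fst (hs i)
        simp only [sh] at this
        omega
    have := this ((s 0).1 + 1)
    omega
  · intro B hB
    refine main B (MeasurableSet.baireMeasurableSet ?_)
    rwa [BorelSpace.measurable_eq (α := ℕ × (ℕ → ℕ))]

end Pool.Agent.Results.MP_a2e3d9_lc.NoGood
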